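import Mathlib
import Pool.Agent.H81.NSDiv

set_option autoImplicit false

namespace Pool.Agent.Results.MP_0a3202_lc.ConvexIff

open FirstOrder FirstOrder.Language
open Pool.Agent.H81.NSDiv

universe u

/-- In every nonstandard extension of `ℕ` with nonempty monads, the monad of an ultrafilter `F` is
convex for star-divisibility exactly when `F` is the only ultrafilter of its `=~`-class. -/
theorem result (S : Type u) [Full.Structure S] (e : ℕ ↪ₑ[Full] S)
    (hmon : ∀ F : Ultrafilter ℕ, (monad S F).Nonempty) (F : Ultrafilter ℕ) :
    IsConvex (monad S F) ↔ ∀ G : Ultrafilter ℕ, EqSim F G → G = F :=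
  convex_iff e hmon F

end Pool.Agent.Results.MP_0a3202_lc.ConvexIff
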