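import Mathlib
import Pool.Agent.H81.NSDiv

set_option autoImplicit false

namespace Pool.Agent.Results.MP_0a3202_lc.NotConvex

open FirstOrder FirstOrder.Language
open Pool.Agent.H81.NSDiv

universe u

/-- In every nonstandard extension `S` of `ℕ` (an elementary extension of `ℕ` in the language with
a symbol for every finitary function and relation on `ℕ`) in which every monad is nonempty, there
is an ultrafilter whose monad is not convex for star-divisibility. -/
theorem result (S : Type u) [Full.Structure S] (e : ℕ ↪ₑ[Full] S)
    (hmon : ∀ F : Ultrafilter ℕ, (monad S F).Nonempty) :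
    ∃ F : Ultrafilter ℕ, ∃ x ∈ monad S F, ∃ y ∈ monad S F, ∃ z : S,
      sdvd x z ∧ sdvd z y ∧ z ∉ monad S F := by
  have h := not_convex_p4 e hmon (Filter.hyperfilter ℕ) (fun n => by
    refine Filter.mem_hyperfilter_of_finite_compl ?_
    refine (Set.finite_le_nat n).subset ?_
    intro m hm
    simpa using hm)
  unfold IsConvex at h
  push Not at h
  obtain ⟨x, hx, y, hy, z, h1, h2, h3⟩ := h
  exact ⟨_, x, hx, y, hy, z, h1, h2, h3⟩

end Pool.Agent.Results.MP_0a3202_lc.NotConvex
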